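import Pool.Agent.P.MP_86995c_pr.Pol4

open Filter Topology Pool.Agent.P.MP_86995c_pr Pool.Agent.P.MP_86995c_pr.St

namespace Pool.Agent.Results.MP_86995c_pr.WalkPolygon

/-- For every `d ≥ 2` and `β > 0` the free energy of interacting self-avoiding walks exists and
equals the free energy of interacting polygons. -/
theorem result (d : ℕ) (hd : 2 ≤ d) (β : ℝ) (hβ : 0 < β) :
    (∀ n, (walks d n).Finite ∧ (polygons d n).Finite) ∧ ∃ L : ℝ,
      Tendsto (fun n : ℕ => 1 / (n : ℝ) * Real.log (ZW d β n)) atTop (𝓝 L) ∧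
      Tendsto (fun n : ℕ => 1 / ((2 * n : ℕ) : ℝ) * Real.log (ZP d β (2 * n))) atTop (𝓝 L) := by
  refine ⟨fun n => ⟨?_, ?_⟩, _, ?_, free_energy_poly hd hβ⟩
  · rw [walks_eq]
    exact Finset.finite_toSet _
  · rw [polygons_eq]
    exact pols_finite d n
  · simp only [ZW_eq]
    exact free_energy hd hβ.le

end Pool.Agent.Results.MP_86995c_pr.WalkPolygon
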